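import Pool.Agent.R272.Besov.Final

set_option autoImplicit false

namespace Pool.Agent.Results.MP_498700_an.BesovCounterexample

open Pool.Agent.R272.Besov
open MeasureTheory Filter Topology

/-- For `N = d = 1` and every `q ∈ (1, ∞)` there is `u ∈ L^q(ℝ)` such that for every
`η ∈ W^{1,1}(ℝ)` the upper limit, as `ε → 0+`, of `[η_ε * u]^q_{W^{1/q,q}} / |ln ε|` is finite,
while `[u]_{B^{1/q}_{q,∞}} = ∞`. -/
theorem result (q : ℝ) (hq : 1 < q) :
    ∃ u : ℝ → ℝ, MemLp u (ENNReal.ofReal q) volume ∧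
      (∀ η : ℝ → ℝ, W11 η →
        limsup (fun ε => gagliardo q (moll η u ε) / ENNReal.ofReal |Real.log ε|) (𝓝[>] 0) < ⊤) ∧
      besov q u = ⊤ :=
  ⟨uu, memLp_uu hq, fun _ h => limsup_lt hq h, besov_top (by linarith)⟩

end Pool.Agent.Results.MP_498700_an.BesovCounterexample
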